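import Pool.Agent.H46.Cake.Guar

/-!
# Truthful cake cutting with a positive guarantee for everybody

For every number `n ≥ 2` of agents there is a truthful mechanism (part of the cake may stay
unallocated) which gives every agent a piece of positive value on every profile of
piecewise-constant densities, and which gives agent `i` at least the fraction `1 / R n K` of its
value of the whole cake whenever the densities of the other agents take at most `K` distinct
values.  For two agents the fraction is at least `1 / (3 k)`, where `k` is the number of distinct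
values of the density of the other agent.
-/

namespace Pool.Agent.Results.MP_e28e82_lc.PositiveShare

open MeasureTheory Set

/-- A piecewise-constant value density on the cake `[0,1]`: nonnegative, constant on each of
finitely many intervals covering `[0,1]`, and with positive integral. -/
structure Density where
  /-- the density -/
  toFun : unitInterval → ℝ
  nonneg : ∀ x, 0 ≤ toFun x
  pc : ∃ P : Finset (Set unitInterval), (∀ J ∈ P, J.OrdConnected) ∧ (∀ x, ∃ J ∈ P, x ∈ J) ∧
    ∀ J ∈ P, ∀ x ∈ J, ∀ y ∈ J, toFun x = toFun y
  pos : 0 < ∫ x, toFun x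

/-- The value of a piece `X` for an agent with density `f`. -/
noncomputable def Density.val (f : Density) (X : Set unitInterval) : ℝ := ∫ x in X, f.toFun x

/-- The number of distinct values taken by a density. -/
noncomputable def Density.numValues (f : Density) : ℕ := (range f.toFun).ncard

/-- A mechanism for `n` agents: it maps each profile of reported densities to pairwise disjoint
measurable pieces. The whole cake need not be allocated. -/
structure Mechanism (n : ℕ) where
  /-- the piece of each agent -/
  alloc : (Fin n → Density) → Fin n → Set unitInterval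
  measurable : ∀ F i, MeasurableSet (alloc F i)
  disjoint : ∀ F i j, i ≠ j → Disjoint (alloc F i) (alloc F j)

/-- Truthfulness: reporting the true density is a dominant strategy. -/
def Mechanism.Truthful {n : ℕ} (M : Mechanism n) : Prop :=
  ∀ (F : Fin n → Density) (i : Fin n) (g : Density),
    (F i).val (M.alloc (Function.update F i g) i) ≤ (F i).val (M.alloc F i)

/-- The constant of the guarantee for `n` agents. -/
noncomputable def R (n K : ℕ) : ℝ :=
  2 * (n + 1) * (K : ℝ) ^ (n - 1) * (2 * n * K : ℝ) ^ ((n - 1) * K)

open Pool.Agent.H46.Cake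

theorem Density.simple (f : Density) : Simple f.toFun := by
  classical
  obtain ⟨P, hP, hcov, hconst⟩ := f.pc
  refine ⟨?_, f.nonneg, ?_⟩
  · intro S _
    have : f.toFun ⁻¹' S = ⋃ J ∈ P.filter (fun J => ∃ x ∈ J, f.toFun x ∈ S), J := by
      ext x
      simp only [mem_preimage, mem_iUnion, exists_prop, Finset.mem_filter]
      constructor
      · intro hx
        obtain ⟨J, hJ, hxJ⟩ := hcov x
        exact ⟨J, ⟨hJ, x, hxJ, hx⟩, hxJ⟩
      · rintro ⟨J, ⟨hJ, y, hyJ, hy⟩, hxJ⟩
        rw [hconst J hJ x hxJ y hyJ]; exact hy
    rw [this]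
    exact Finset.measurableSet_biUnion _
      (fun J hJ => (hP J (Finset.mem_filter.1 hJ).1).measurableSet)
  · by_cases hne : Nonempty unitInterval
    · have : range f.toFun ⊆ ((P.image (fun J => if h : J.Nonempty then f.toFun h.some else 0) :
          Finset ℝ) : Set ℝ) := by
        rintro _ ⟨x, rfl⟩
        obtain ⟨J, hJ, hxJ⟩ := hcov x
        rw [Finset.mem_coe, Finset.mem_image]
        refine ⟨J, hJ, ?_⟩
        have hJne : J.Nonempty := ⟨x, hxJ⟩
        rw [dif_pos hJne]
        exact hconst J hJ _ hJne.some_mem x hxJ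
      exact (Finset.finite_toSet _).subset this
    · exact absurd ⟨0⟩ hne

/-- The mechanism built from the menus. -/
theorem exists_mechanism {n : ℕ} {ρ : ℝ} (hρ : 0 < ρ)
    (hne : ∀ (F : Fin n → Density) (i : Fin n),
      (Menu volume ρ (fun l => (F l).toFun) i).Nonempty) :
    ∃ M : Mechanism n, M.Truthful ∧ ∀ (F : Fin n → Density) (i : Fin n),
      ∀ A ∈ Menu volume ρ (fun l => (F l).toFun) i,
      (F i).val A ≤ (F i).val (M.alloc F i) := by
  classical
  have hex : ∀ F : Fin n → Density, ∃ A : Fin n → Set unitInterval,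
      (∀ i j, i ≠ j → Disjoint (A i) (A j)) ∧
      ∀ i, A i ∈ Menu volume ρ (fun l => (F l).toFun) i ∧
        ∀ A' ∈ Menu volume ρ (fun l => (F l).toFun) i,
          ∫ x in A', (F i).toFun x ≤ ∫ x in A i, (F i).toFun x := by
    intro F
    refine exists_choice (μ := volume) (F := fun l => (F l).toFun) split_unit hρ
      (fun i => (F i).simple) (fun i => ?_)
    obtain ⟨A, _, σ, hσ, _⟩ := hne F i
    exact ⟨σ, hσ⟩
  choose al hal using hex
  refine ⟨⟨al, fun F i => ((hal F).2 i).1.1, fun F i j hij => (hal F).1 i j hij⟩, ?_, ?_⟩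
  · intro F i g
    refine ((hal F).2 i).2 _ ?_
    have h1 := ((hal (Function.update F i g)).2 i).1
    refine menu_subset ?_ h1
    intro l hl
    simp [Function.update_of_ne hl]
  · intro F i A hA
    exact ((hal F).2 i).2 A hA

/-- **Main result.** -/
theorem result :
    (∀ n : ℕ, 2 ≤ n → ∃ M : Mechanism n, M.Truthful ∧
      (∀ (F : Fin n → Density) (i : Fin n), 0 < (F i).val (M.alloc F i)) ∧
      ∀ (K : ℕ) (F : Fin n → Density) (i : Fin n), (∀ l, l ≠ i → (F l).numValues ≤ K) →
        (F i).val univ / R n K ≤ (F i).val (M.alloc F i)) ∧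
    ∃ M : Mechanism 2, M.Truthful ∧ ∀ (F : Fin 2 → Density) (i j : Fin 2), i ≠ j →
      (F i).val univ / (3 * (F j).numValues) ≤ (F i).val (M.alloc F i) := by
  classical
  have hval : ∀ f : Density, f.val univ = ∫ x, f.toFun x := fun f => setIntegral_univ
  constructor
  · intro n hn
    have hguar : ∀ (K : ℕ) (F : Fin n → Density) (i : Fin n),
        (∀ l, l ≠ i → (F l).numValues ≤ K) →
        ∃ A ∈ Menu volume (1/2) (fun l => (F l).toFun) i,
          (F i).val univ ≤ R n K * (F i).val A := by
      intro K F i hK
      obtain ⟨A, hA, h⟩ := guarantee (μ := volume) (F := fun l => (F l).toFun) split_unit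
        (fun l => (F l).simple) i (K := K) hK (by rw [Fintype.card_fin]; exact hn) (F i).pos
      refine ⟨A, hA, ?_⟩
      rw [hval]
      rw [Fintype.card_fin] at h
      exact h
    have hmax : ∀ (F : Fin n → Density), ∃ K, ∀ l, (F l).numValues ≤ K := by
      intro F
      exact ⟨∑ l, (F l).numValues, fun l => Finset.single_le_sum
        (f := fun l => (F l).numValues) (fun _ _ => Nat.zero_le _) (Finset.mem_univ l)⟩
    obtain ⟨M, hM, hopt⟩ := exists_mechanism (n := n) (ρ := 1/2) (by norm_num) (by
      intro F i
      obtain ⟨K, hK⟩ := hmax F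
      obtain ⟨A, hA, _⟩ := hguar K F i (fun l _ => hK l)
      exact ⟨A, hA⟩)
    have hmain : ∀ (K : ℕ) (F : Fin n → Density) (i : Fin n),
        (∀ l, l ≠ i → (F l).numValues ≤ K) → 0 < R n K ∧
        (F i).val univ ≤ R n K * (F i).val (M.alloc F i) := by
      intro K F i hK
      have hR0 : 0 ≤ R n K := by unfold R; positivity
      obtain ⟨A, hA, h⟩ := hguar K F i hK
      have h1 : (F i).val univ ≤ R n K * (F i).val (M.alloc F i) :=
        h.trans (mul_le_mul_of_nonneg_left (hopt F i A hA) hR0)
      refine ⟨?_, h1⟩
      rcases hR0.eq_or_lt with h2 | h2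
      · exfalso
        rw [← h2, zero_mul, hval] at h1
        exact absurd (F i).pos (not_lt.2 h1)
      · exact h2
    refine ⟨M, hM, ?_, ?_⟩
    · intro F i
      obtain ⟨K, hK⟩ := hmax F
      obtain ⟨hR, h⟩ := hmain K F i (fun l _ => hK l)
      have hp : 0 < (F i).val univ := by rw [hval]; exact (F i).pos
      by_contra hcon
      rw [not_lt] at hcon
      have : R n K * (F i).val (M.alloc F i) ≤ 0 := mul_nonpos_of_nonneg_of_nonpos hR.le hcon
      linarith
    · intro K F i hK
      obtain ⟨hR, h⟩ := hmain K F i hK
      rw [div_le_iff₀ hR]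
      linarith
  · have hguar : ∀ (F : Fin 2 → Density) (i j : Fin 2), i ≠ j →
        ∃ A ∈ Menu volume 1 (fun l => (F l).toFun) i,
          (F i).val univ ≤ 3 * (F j).numValues * (F i).val A := by
      intro F i j hij
      obtain ⟨A, hA, h⟩ := guarantee_two (μ := volume) (F := fun l => (F l).toFun) split_unit
        (fun l => (F l).simple) hij (Fintype.card_fin 2) (F i).pos
      refine ⟨A, hA, ?_⟩
      rw [hval]
      exact h
    obtain ⟨M, hM, hopt⟩ := exists_mechanism (n := 2) (ρ := 1) (by norm_num) (by
      intro F i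
      obtain ⟨j, hj⟩ : ∃ j : Fin 2, i ≠ j := by
        by_cases h : i = 0
        · exact ⟨1, by rw [h]; decide⟩
        · exact ⟨0, h⟩
      obtain ⟨A, hA, _⟩ := hguar F i j hj
      exact ⟨A, hA⟩)
    refine ⟨M, hM, ?_⟩
    intro F i j hij
    obtain ⟨A, hA, h⟩ := hguar F i j hij
    have hpos : 0 < ((F j).numValues : ℝ) := by
      have : 0 < (range (F j).toFun).ncard := by
        rw [Set.ncard_pos (F j).simple.fin]
        exact ⟨_, mem_range_self 0⟩
      exact_mod_cast this
    rw [div_le_iff₀ (by positivity)]
    have h1 := mul_le_mul_of_nonneg_left (hopt F i A hA)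
      (by positivity : (0 : ℝ) ≤ 3 * (F j).numValues)
    linarith

end Pool.Agent.Results.MP_e28e82_lc.PositiveShare
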